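import Pool.Agent.W2helper80.UL.Zeta
import Pool.Agent.H370R2.Expl3
import Pool.Agent.H370R2.Dyadic

/-!
# Long affine relations between the ordinates of the zeros of zeta, unconditionally

The case `F = ℚ` of the question: `Γ` is the set of the ordinates of the zeros of zeta.  An affine
relation `∑ cₖ γₖ = a` with `m` different coefficients of size at most `T log T / K` holds for a
proportion at most `K / (m T log T)` of the tuples of ordinates up to `T`: the trivial bound, in which
one ordinate is determined by the others, is improved by a factor `m / K`.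
-/

open Complex Finset

namespace Pool.Agent.Results.MP_0f5a55_nt.LongAffineRelations

/-- the ordinates in `(0, T]` of the nontrivial zeros of zeta, on or off the critical line -/
def ordinates (T : ℝ) : Set ℝ :=
  {γ : ℝ | 0 < γ ∧ γ ≤ T ∧ ∃ β : ℝ, 0 < β ∧ β < 1 ∧ riemannZeta (β + γ * I) = 0}

/-- the ordinates in `(0, T]` of the zeros of zeta on the critical line -/
def critical (T : ℝ) : Set ℝ := {γ : ℝ | 0 < γ ∧ γ ≤ T ∧ riemannZeta (1 / 2 + γ * I) = 0}

lemma re_pt (β γ : ℝ) : ((β : ℂ) + γ * I).re = β := by simp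
lemma im_pt (β γ : ℝ) : ((β : ℂ) + γ * I).im = γ := by simp

lemma critical_sub (T : ℝ) : critical T ⊆ ordinates T := by
  rintro γ ⟨h1, h2, h3⟩
  refine ⟨h1, h2, 1 / 2, by norm_num, by norm_num, ?_⟩
  push_cast
  exact h3

lemma ordinates_sub (T : ℝ) : ordinates T ⊆ Complex.im '' (H370.zset riemannZeta 0 T) := by
  rintro γ ⟨h1, h2, β, h3, h4, h5⟩
  refine ⟨β + γ * I, ⟨?_, ?_, ?_, ?_, h5⟩, im_pt β γ⟩
  · rw [re_pt]; exact h3
  · rw [re_pt]; exact h4
  · rw [im_pt]; exact h1
  · rw [im_pt]; exact h2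

theorem ordinates_finite (T : ℝ) : (ordinates T).Finite :=
  ((H370.zeta_zeros_finite T).image _).subset (ordinates_sub T)

theorem critical_finite (T : ℝ) : (critical T).Finite :=
  (ordinates_finite T).subset (critical_sub T)

/-- the finitely many small ordinates -/
noncomputable def sm : Finset ℝ := (ordinates_finite 1).toFinset

lemma ord_mem {T γ : ℝ} (h : γ ∈ ordinates T) :
    γ ∈ Pool.Agent.W2helper80.UL.Gam (fun _ : Unit => riemannZeta) sm T := by
  rw [Pool.Agent.W2helper80.UL.mem_Gam]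
  obtain ⟨h1, h2, β, h3, h4, h5⟩ := h
  by_cases hγ : γ ≤ 1
  · right
    unfold sm
    rw [Set.Finite.mem_toFinset]
    exact ⟨h1, hγ, β, h3, h4, h5⟩
  · left
    push Not at hγ
    refine ⟨(), β + γ * I, ?_, im_pt β γ⟩
    rw [H370.mem_Zf H370.good_zeta le_rfl]
    refine ⟨?_, ?_, ?_, ?_, h5⟩
    · rw [re_pt]; exact h3
    · rw [re_pt]; exact h4
    · rw [im_pt]; exact hγ
    · rw [im_pt]; exact h2

/-- **Long affine relations**, unconditionally.  For every `η > 0` there is `K` such that for all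
large `T`: let `c₁, …, cₙ` be nonzero reals and `J` a set of at least two indices with
`K |cₖ| ≤ T log T |cᵢ - cⱼ|` for all `k` and all different `i, j ∈ J`.  Let `A₁, …, Aₙ` be sets of at
least `η T log T` ordinates in `(0, T]` of nontrivial zeros of zeta, on or off the critical line, and
let `a` be real.  Then for all `i ≠ j` at most `(K / |J|) ∏ |Aₖ| / (T log T)` of the points `x` of
`A₁ × ⋯ × Aₙ` satisfy `|∑ cₖ xₖ - a| ≤ min (|cᵢ|, |cⱼ|) / (|J| log T)`. -/
theorem result (η : ℝ) (hη : 0 < η) : ∃ K T₀ : ℝ, 0 < K ∧ ∀ T : ℝ, T₀ ≤ T →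
    ∀ (n : ℕ) (c : Fin n → ℝ) (a : ℝ) (A : Fin n → Finset ℝ) (J : Finset (Fin n)),
      (∀ k, c k ≠ 0) →
      (∀ i ∈ J, ∀ j ∈ J, i ≠ j → ∀ k, K * |c k| ≤ T * Real.log T * |c i - c j|) →
      (∀ k, (A k : Set ℝ) ⊆ ordinates T) →
      (∀ k, η * (T * Real.log T) ≤ (A k).card) →
      2 ≤ J.card → ∀ i j, i ≠ j →
      (((Fintype.piFinset A).filter (fun x : Fin n → ℝ => |∑ k, c k * x k - a| ≤
        min |c i| |c j| / (J.card * Real.log T))).card : ℝ) ≤
      K / J.card * (∏ k, ((A k).card : ℝ)) / (T * Real.log T) := by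
  obtain ⟨K, T₀, hK, h⟩ := Pool.Agent.W2helper80.UL.fam_main (sm := sm)
    (F := fun _ : Unit => riemannZeta) (fun _ => H370.good_zeta)
    (fun _ => Pool.Agent.W2helper80.UL.dens_zeta) (fun _ => Pool.Agent.W2helper80.UL.prs_zeta) η hη
  refine ⟨K, T₀, hK, fun T hT n c a A J hc hgap hA hcard hJ i j hij => ?_⟩
  exact h T hT n c a A J hc hgap (fun k x hx => ord_mem (hA k (Finset.mem_coe.2 hx))) hcard hJ i j hij

/-- the critical ordinates have positive density -/
theorem many_critical : ∃ T₀ : ℝ, ∀ T : ℝ, T₀ ≤ T →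
    1 / 50 * (T * Real.log T) ≤ ((critical T).ncard : ℝ) := by
  obtain ⟨T1, h1⟩ := H370.Expl.main_numeric riemannZeta H370.good_zeta
  obtain ⟨C, T2, hC, hT2, h2⟩ := H370.nn_asymp H370.good_zeta
  refine ⟨max (2 * max T1 T2) (2 * Real.exp (100 * (C + 1))), fun T hT => ?_⟩
  have hTa : 2 * max T1 T2 ≤ T := (le_max_left _ _).trans hT
  have hTb : 2 * Real.exp (100 * (C + 1)) ≤ T := (le_max_right _ _).trans hT
  have hTT1 : T1 ≤ T / 2 := by linarith [le_max_left T1 T2]
  have hTT2 : T2 ≤ T / 2 := by linarith [le_max_right T1 T2]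
  have hT0 : 0 < T / 2 := by linarith
  have e0 : 2 * (T / 2) = T := by ring
  have h3 := (h1 (T / 2) hTT1).1
  have h4 := h2 (T / 2) hTT2 (T / 2) T le_rfl (by linarith) (by linarith) (by linarith)
  rw [e0] at h3
  have h5 := (abs_le.1 h4).1
  have hlog : 100 * (C + 1) ≤ Real.log (T / 2) := by
    rw [Real.le_log_iff_exp_le hT0]; linarith
  have hl2 : Real.log T = Real.log (T / 2) + Real.log 2 := by
    rw [← Real.log_mul hT0.ne' (by norm_num)]; congr 1; ring
  have hl3 : Real.log 2 ≤ 1 := by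
    have := Real.log_two_lt_d9
    linarith
  have hpi : Real.pi < 3.15 := Real.pi_lt_d2
  have hpi0 := Real.pi_pos
  set L := Real.log (T / 2) with hL
  have hL0 : 0 < L := by nlinarith
  have h6 : T / 2 * L / 6.3 ≤ T / 2 * L / (2 * Real.pi) := by
    apply div_le_div_of_nonneg_left (by positivity) (by positivity) (by linarith)
  have h7 : (H370.Ns riemannZeta (T / 2) T : ℝ) ≤ (critical T).ncard := by
    unfold H370.Ns
    norm_cast
    refine Set.ncard_le_ncard_of_injOn (fun s => s.im) ?_ ?_ (critical_finite T)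
    · rintro s ⟨⟨a1, a2, a3, a4, a5⟩, a6, a7⟩
      refine ⟨by linarith, a4, ?_⟩
      have hs : (1 / 2 + s.im * I : ℂ) = s := by
        apply Complex.ext
        · simp [a6]
        · simp
      rw [hs]; exact a5
    · rintro s ⟨-, h6, -⟩ s' ⟨-, h6', -⟩ h
      exact Complex.ext (h6.trans h6'.symm) h
  refine le_trans ?_ h7
  refine le_trans ?_ h3
  rw [hl2]
  have h8 : T / 2 * L / 6.3 - C * (T / 2) ≤ (H370.NN riemannZeta (T / 2) T : ℝ) := by linarith
  have h9 : C ≤ L / 100 := by linarith
  have h10 : C * (T / 2) ≤ L / 100 * (T / 2) := by gcongr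
  have h11 : T / 2 ≤ L / 100 * (T / 2) := by
    have : 1 ≤ L / 100 := by linarith
    nlinarith
  have e1 : T / 2 * L / 6.3 = T * L * (5 / 63) := by norm_num; ring
  have e2 : T * (L + Real.log 2) ≤ T * L + T := by nlinarith
  have e3 : L / 100 * (T / 2) = T * L / 200 := by ring
  rw [e1] at h8
  rw [e3] at h10 h11
  have e4 : 0 < T * L := by nlinarith
  linarith

/-- The case of all the ordinates of the zeros on the critical line: there are at least `T log T / 50`
of them in `(0, T]` for large `T`; and for all integers `c₁, …, cₙ`, none of them zero, with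
`|cₖ| ≤ T log T / K`, which take `m ≥ 2` different values, and for all real `a`, the number of the
`n`-tuples of these ordinates with `∑ cₖ γₖ = a` is at most `(K / m) N ^ n / (T log T)`, where `N` is the
number of these ordinates. -/
theorem critical_tuples :
    (∃ K T₀ : ℝ, 0 < K ∧ ∀ T : ℝ, T₀ ≤ T →
      (critical T).Finite ∧ 1 / 50 * (T * Real.log T) ≤ ((critical T).ncard : ℝ) ∧
      ∀ (n : ℕ) (c : Fin n → ℤ) (a : ℝ), (∀ k, c k ≠ 0) →
        (∀ k, K * |(c k : ℝ)| ≤ T * Real.log T) → 2 ≤ (univ.image c).card →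
        ({x : Fin n → ℝ | (∀ k, x k ∈ critical T) ∧ ∑ k, (c k : ℝ) * x k = a}.ncard : ℝ) ≤
          K / (univ.image c).card * ((critical T).ncard : ℝ) ^ n / (T * Real.log T)) := by
  classical
  obtain ⟨K, T1, hK, h⟩ := result (1 / 50) (by norm_num)
  obtain ⟨T2, h2⟩ := many_critical
  refine ⟨K, max (max T1 T2) 3, hK, fun T hT => ⟨critical_finite T, ?_, ?_⟩⟩
  · exact h2 T (((le_max_right _ _).trans (le_max_left _ _)).trans hT)
  intro n c a hc hsize hm
  have hTT1 : T1 ≤ T := ((le_max_left _ _).trans (le_max_left _ _)).trans hT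
  have hTT2 : T2 ≤ T := ((le_max_right _ _).trans (le_max_left _ _)).trans hT
  have hT3 : 3 ≤ T := (le_max_right _ _).trans hT
  have hlog : 0 < Real.log T := Real.log_pos (by linarith)
  -- representatives of the values
  have hrep : ∀ v : ℤ, v ∈ univ.image c → ∃ k, c k = v := fun v hv => by
    obtain ⟨k, _, hk⟩ := mem_image.1 hv
    exact ⟨k, hk⟩
  set r : {v : ℤ // v ∈ univ.image c} → Fin n := fun v => (hrep v.1 v.2).choose with hr
  have hrc : ∀ v, c (r v) = v.1 := fun v => (hrep v.1 v.2).choose_spec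
  have hrinj : Function.Injective r := by
    intro v w hvw
    apply Subtype.ext
    rw [← hrc v, ← hrc w, hvw]
  set J : Finset (Fin n) := (univ.image c).attach.image r with hJ
  have hJcard : J.card = (univ.image c).card := by
    rw [hJ, card_image_of_injective _ hrinj, card_attach]
  have hJinj : ∀ i ∈ J, ∀ j ∈ J, i ≠ j → c i ≠ c j := by
    intro i hi j hj hij h1
    rw [hJ, mem_image] at hi hj
    obtain ⟨v, _, rfl⟩ := hi
    obtain ⟨w, _, rfl⟩ := hj
    rw [hrc, hrc] at h1
    exact hij (by rw [Subtype.ext h1])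
  obtain ⟨i, hi, j, hj, hij⟩ := Finset.one_lt_card.1 (show 1 < J.card by omega)
  set Γ : Finset ℝ := (critical_finite T).toFinset with hΓ
  have hΓc : Γ.card = (critical T).ncard := (Set.ncard_eq_toFinset_card _ (critical_finite T)).symm
  have key := h T hTT1 n (fun k => (c k : ℝ)) a (fun _ => Γ) J (fun k => by exact_mod_cast hc k)
    (fun i hi j hj hij k => by
      refine (hsize k).trans ?_
      have h1 : (1 : ℤ) ≤ |c i - c j| := Int.one_le_abs (sub_ne_zero.2 (hJinj i hi j hj hij))
      have h2 : (1 : ℝ) ≤ |(c i : ℝ) - c j| := by exact_mod_cast h1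
      exact le_mul_of_one_le_right (by positivity) h2)
    (fun k x hx => by
      rw [Set.Finite.coe_toFinset] at hx
      exact critical_sub T hx)
    (fun k => by rw [hΓc]; exact h2 T hTT2) (by omega) i j hij
  rw [prod_const, card_univ, Fintype.card_fin, hΓc, hJcard] at key
  refine le_trans ?_ key
  have hsub : {x : Fin n → ℝ | (∀ k, x k ∈ critical T) ∧ ∑ k, (c k : ℝ) * x k = a} ⊆
      (((Fintype.piFinset (fun _ : Fin n => Γ)).filter (fun x : Fin n → ℝ =>
        |∑ k, (c k : ℝ) * x k - a| ≤ min |(c i : ℝ)| |(c j : ℝ)| /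
          ((univ.image c).card * Real.log T)) : Finset (Fin n → ℝ)) : Set (Fin n → ℝ)) := by
    rintro x ⟨h3, h4⟩
    rw [mem_coe, mem_filter, Fintype.mem_piFinset]
    refine ⟨fun k => (Set.Finite.mem_toFinset _).2 (h3 k), ?_⟩
    rw [h4, sub_self, abs_zero]
    positivity
  have h5 := Set.ncard_le_ncard hsub (Finset.finite_toSet _)
  rw [Set.ncard_coe_finset] at h5
  exact_mod_cast h5

end Pool.Agent.Results.MP_0f5a55_nt.LongAffineRelations
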