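import Pool.Agent.W2helper67.RL.Nr

set_option autoImplicit false

/-! # Consecutive ordinates of the zeta function satisfy no linear recurrence, even approximately -/

namespace Pool.Agent.Results.MP_0f5a55_nt.NoLinearRecurrence

open Filter

/-- the number of nontrivial zeros of `ζ` with ordinate in `(0, T]`, on or off the critical line,
counted with multiplicity -/
noncomputable def zeroCount (T : ℝ) : ℕ :=
  ∑ᶠ s ∈ {s : ℂ | riemannZeta s = 0 ∧ 0 < s.re ∧ s.re < 1 ∧ 0 < s.im ∧ s.im ≤ T},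
    analyticOrderNatAt riemannZeta s

/-- the ordinates `γ 0 ≤ γ 1 ≤ ⋯` of these zeros in nondecreasing order, each repeated according to
multiplicity: `γ n` is the least `T` with more than `n` zeros up to height `T` -/
noncomputable def γ (n : ℕ) : ℝ := sInf {T : ℝ | n < zeroCount T}

lemma γ_eq : γ = Pool.Agent.W2helper67.RL.od := by
  have h : zeroCount = Pool.Agent.W2helper93.NV.NT := by
    funext T
    unfold zeroCount Pool.Agent.W2helper93.NV.NT
    have e : {s : ℂ | riemannZeta s = 0 ∧ 0 < s.re ∧ s.re < 1 ∧ 0 < s.im ∧ s.im ≤ T} =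
        {s : ℂ | s ∈ Pool.Agent.W2helper93.NV.ZZ ∧ 0 < s.im ∧ s.im ≤ T} := by
      ext s
      constructor
      · rintro ⟨h1, h2, h3, h4, h5⟩
        exact ⟨⟨h1, h2, h3⟩, h4, h5⟩
      · rintro ⟨⟨h1, h2, h3⟩, h4, h5⟩
        exact ⟨h1, h2, h3, h4, h5⟩
    rw [e]
    rfl
  funext n
  unfold γ Pool.Agent.W2helper67.RL.od
  rw [h]

/-- **Unconditionally, on almost every window of bounded length the ordinates satisfy no linear
recurrence with real coefficients and polynomial inhomogeneity, even up to a small multiple of the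
mean spacing.** -/
theorem result (k d : ℕ) (θ : ℝ) (hθ : 0 < θ) : ∃ (B : ℕ) (ε : ℝ), 0 < ε ∧ ∀ᶠ N : ℕ in atTop,
    (Set.ncard {n : ℕ | n ≤ N ∧ ∃ (c : Fin (k + 1) → ℝ) (P : Polynomial ℝ),
      (∃ j, 1 ≤ |c j|) ∧ P.natDegree ≤ d ∧
      ∀ i < B, |∑ j, c j * γ (n + i + j) - P.eval (i : ℝ)| ≤ ε / Real.log N} : ℝ) ≤ θ * N := by
  classical
  obtain ⟨B, ε, hε, h⟩ := Pool.Agent.W2helper67.RL.norec k d (θ / 2) (by positivity)
  refine ⟨B, ε, hε, ?_⟩
  filter_upwards [h, (tendsto_natCast_atTop_atTop.const_mul_atTop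
    (show (0 : ℝ) < θ / 2 by positivity)).eventually_ge_atTop 1] with N hN h1
  have hsub : {n : ℕ | n ≤ N ∧ ∃ (c : Fin (k + 1) → ℝ) (P : Polynomial ℝ),
      (∃ j, 1 ≤ |c j|) ∧ P.natDegree ≤ d ∧
      ∀ i < B, |∑ j, c j * γ (n + i + j) - P.eval (i : ℝ)| ≤ ε / Real.log N} ⊆
      ((insert 0 ((Finset.Icc 1 N).filter (fun n => ∃ (c : ℕ → ℝ) (P : Polynomial ℝ),
      (∃ j ≤ k, 1 ≤ |c j|) ∧ P.natDegree ≤ d ∧
      ∀ i < B, |∑ j ∈ Finset.range (k + 1), c j * Pool.Agent.W2helper67.RL.od (n + i + j) -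
        P.eval (i : ℝ)| ≤ ε / Real.log N) : Finset ℕ) : Finset ℕ) : Set ℕ) := by
    rintro n ⟨hn, c, P, ⟨j, hj⟩, hP, hrel⟩
    rw [Finset.mem_coe, Finset.mem_insert, Finset.mem_filter]
    rcases Nat.eq_zero_or_pos n with h0 | h0
    · exact Or.inl h0
    refine Or.inr ⟨Finset.mem_Icc.2 ⟨h0, hn⟩, fun j => if hj : j < k + 1 then c ⟨j, hj⟩ else 0, P,
      ⟨j, Nat.lt_succ_iff.1 j.2, ?_⟩, hP, ?_⟩
    · dsimp only
      rw [dif_pos j.2]
      exact hj
    · intro i hi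
      have h2 := hrel i hi
      rw [γ_eq] at h2
      rw [Finset.sum_range]
      have h3 : ∀ j : Fin (k + 1), (if hj : (j : ℕ) < k + 1 then c ⟨j, hj⟩ else 0) = c j :=
        fun j => dif_pos j.2
      simp only [h3]
      exact h2
  have h2 := Set.ncard_le_ncard hsub (Finset.finite_toSet _)
  rw [Set.ncard_coe_finset] at h2
  have h3 := h2.trans (Finset.card_insert_le _ _)
  have h4 := (Nat.cast_le (α := ℝ)).2 h3
  rw [Nat.cast_add, Nat.cast_one] at h4
  refine h4.trans ((add_le_add hN h1).trans (le_of_eq ?_))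
  ring

/-- exact recurrences: on almost every window of bounded length the ordinates satisfy no nontrivial
linear recurrence of order at most `k` with a polynomial inhomogeneity of degree at most `d`; the
real coefficients may depend on the window -/
theorem exact_recurrences (k d : ℕ) (θ : ℝ) (hθ : 0 < θ) : ∃ B : ℕ, ∀ᶠ N : ℕ in atTop,
    (Set.ncard {n : ℕ | n ≤ N ∧ ∃ (c : Fin (k + 1) → ℝ) (P : Polynomial ℝ),
      c ≠ 0 ∧ P.natDegree ≤ d ∧
      ∀ i < B, ∑ j, c j * γ (n + i + j) = P.eval (i : ℝ)} : ℝ) ≤ θ * N := by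
  obtain ⟨B, ε, hε, h⟩ := result k d θ hθ
  refine ⟨B, ?_⟩
  filter_upwards [h, eventually_ge_atTop 1] with N hN hN1
  refine le_trans ?_ hN
  have hlog : 0 ≤ ε / Real.log N := div_nonneg hε.le (Real.log_natCast_nonneg N)
  have hfin : {n : ℕ | n ≤ N ∧ ∃ (c : Fin (k + 1) → ℝ) (P : Polynomial ℝ),
      (∃ j, 1 ≤ |c j|) ∧ P.natDegree ≤ d ∧
      ∀ i < B, |∑ j, c j * γ (n + i + j) - P.eval (i : ℝ)| ≤ ε / Real.log N}.Finite :=
    (Set.finite_Iic N).subset fun n hn => hn.1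
  have hle := Set.ncard_le_ncard (s := {n : ℕ | n ≤ N ∧ ∃ (c : Fin (k + 1) → ℝ)
      (P : Polynomial ℝ), c ≠ 0 ∧ P.natDegree ≤ d ∧
      ∀ i < B, ∑ j, c j * γ (n + i + j) = P.eval (i : ℝ)}) ?_ hfin
  · exact_mod_cast hle
  · rintro n ⟨hn, c, P, hc, hP, hrel⟩
    obtain ⟨j, hj⟩ := Function.ne_iff.1 hc
    have hj' : 0 < |c j| := abs_pos.2 hj
    refine ⟨hn, fun a => c a / c j, Polynomial.C (c j)⁻¹ * P, ⟨j, ?_⟩,
      (Polynomial.natDegree_C_mul_le _ _).trans hP, ?_⟩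
    · dsimp only
      rw [div_self hj, abs_one]
    · intro i hi
      have e : ∑ a, c a / c j * γ (n + i + a) - (Polynomial.C (c j)⁻¹ * P).eval (i : ℝ) = 0 := by
        rw [Polynomial.eval_mul, Polynomial.eval_C, ← hrel i hi, Finset.mul_sum,
          ← Finset.sum_sub_distrib]
        refine Finset.sum_eq_zero fun a _ => ?_
        ring
      rw [e, abs_zero]
      exact hlog

end Pool.Agent.Results.MP_0f5a55_nt.NoLinearRecurrence
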