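import Pool.Agent.W2helper67.TM.Fin

set_option autoImplicit false

/-! # The ordinates of the zeta zeros are not almost invariant under a translation -/

namespace Pool.Agent.Results.MP_0f5a55_nt.TranslationMatchings

open Filter

/-- the number of nontrivial zeros of `ζ` with ordinate in `(0, T]`, on or off the critical line,
counted with multiplicity -/
noncomputable def zeroCount (T : ℝ) : ℕ :=
  ∑ᶠ s ∈ {s : ℂ | riemannZeta s = 0 ∧ 0 < s.re ∧ s.re < 1 ∧ 0 < s.im ∧ s.im ≤ T},
    analyticOrderNatAt riemannZeta s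

/-- the ordinates `γ 0 ≤ γ 1 ≤ ⋯` of these zeros in nondecreasing order, each repeated according to
multiplicity: `γ n` is the least `T` with more than `n` zeros up to height `T` -/
noncomputable def γ (n : ℕ) : ℝ := sInf {T : ℝ | n < zeroCount T}

lemma γ_eq : γ = Pool.Agent.W2helper67.RL.od := by
  have h : zeroCount = Pool.Agent.W2helper93.NV.NT := by
    funext T
    unfold zeroCount Pool.Agent.W2helper93.NV.NT
    have e : {s : ℂ | riemannZeta s = 0 ∧ 0 < s.re ∧ s.re < 1 ∧ 0 < s.im ∧ s.im ≤ T} =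
        {s : ℂ | s ∈ Pool.Agent.W2helper93.NV.ZZ ∧ 0 < s.im ∧ s.im ≤ T} := by
      ext s
      constructor
      · rintro ⟨h1, h2, h3, h4, h5⟩
        exact ⟨⟨h1, h2, h3⟩, h4, h5⟩
      · rintro ⟨⟨h1, h2, h3⟩, h4, h5⟩
        exact ⟨h1, h2, h3, h4, h5⟩
    rw [e]
    rfl
  funext n
  unfold γ Pool.Agent.W2helper67.RL.od
  rw [h]

/-- **Unconditionally, for every `K` a positive proportion `δ` of the first `N` ordinates stays
unmatched in every injective matching `n ↦ φ n` of ordinates that differ by `a` up to `K / log N`,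
uniformly for real `a` with `A / log N ≤ |a| ≤ H`.** -/
theorem result (K : ℝ) : ∃ δ A : ℝ, 0 < δ ∧ 0 < A ∧ ∀ H : ℝ, ∀ᶠ N : ℕ in atTop,
    ∀ a : ℝ, A / Real.log N ≤ |a| → |a| ≤ H → ∀ (S : Finset ℕ) (φ : ℕ → ℕ),
    (∀ n ∈ S, n < N) → Set.InjOn φ S → (∀ n ∈ S, |γ (φ n) - γ n - a| ≤ K / Real.log N) →
    (S.card : ℝ) ≤ (1 - δ) * N := by
  rw [γ_eq]
  exact Pool.Agent.W2helper67.TM.main2 K

/-- exact matches: there is an absolute `δ > 0` such that, for every real `a ≠ 0` (for example a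
rational combination of finitely many ordinates), every injective matching of ordinates with
`γ (φ n) - γ n = a` leaves at least `δ N` of the first `N` ordinates unmatched, for all large `N` -/
theorem exact_matchings : ∃ δ : ℝ, 0 < δ ∧ ∀ a : ℝ, a ≠ 0 → ∀ᶠ N : ℕ in atTop,
    ∀ (S : Finset ℕ) (φ : ℕ → ℕ), (∀ n ∈ S, n < N) → Set.InjOn φ S →
    (∀ n ∈ S, γ (φ n) - γ n = a) → (S.card : ℝ) ≤ (1 - δ) * N := by
  obtain ⟨δ, A, hδ, hA, h⟩ := result 0
  refine ⟨δ, hδ, fun a ha => ?_⟩
  have ha' : 0 < |a| := abs_pos.2 ha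
  have h1 : Tendsto (fun N : ℕ => A / Real.log N) atTop (nhds 0) :=
    (Real.tendsto_log_atTop.comp tendsto_natCast_atTop_atTop).const_div_atTop A
  filter_upwards [h |a|, h1.eventually_le_const ha'] with N hN hN1 S φ hS hφ hd
  refine hN a hN1 le_rfl S φ hS hφ fun n hn => ?_
  rw [hd n hn, sub_self, abs_zero, zero_div]

end Pool.Agent.Results.MP_0f5a55_nt.TranslationMatchings
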