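import Pool.Agent.W2helper67.RL.Dy

set_option autoImplicit false

/-! # Linear relations between well separated ordinates of the zeta function are rare -/

namespace Pool.Agent.Results.MP_0f5a55_nt.WellSeparatedRelations

/-- the number of nontrivial zeros of `ζ` with ordinate in `(0, T]`, on or off the critical line,
counted with multiplicity -/
noncomputable def zeroCount (T : ℝ) : ℕ :=
  ∑ᶠ s ∈ {s : ℂ | riemannZeta s = 0 ∧ 0 < s.re ∧ s.re < 1 ∧ 0 < s.im ∧ s.im ≤ T},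
    analyticOrderNatAt riemannZeta s

/-- the ordinates `γ 0 ≤ γ 1 ≤ ⋯` of these zeros in nondecreasing order, each repeated according to
multiplicity: `γ n` is the least `T` with more than `n` zeros up to height `T` -/
noncomputable def γ (n : ℕ) : ℝ := sInf {T : ℝ | n < zeroCount T}

lemma γ_eq : γ = Pool.Agent.W2helper67.RL.od := by
  have h : zeroCount = Pool.Agent.W2helper93.NV.NT := by
    funext T
    unfold zeroCount Pool.Agent.W2helper93.NV.NT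
    have e : {s : ℂ | riemannZeta s = 0 ∧ 0 < s.re ∧ s.re < 1 ∧ 0 < s.im ∧ s.im ≤ T} =
        {s : ℂ | s ∈ Pool.Agent.W2helper93.NV.ZZ ∧ 0 < s.im ∧ s.im ≤ T} := by
      ext s
      constructor
      · rintro ⟨h1, h2, h3, h4, h5⟩
        exact ⟨⟨h1, h2, h3⟩, h4, h5⟩
      · rintro ⟨⟨h1, h2, h3⟩, h4, h5⟩
        exact ⟨h1, h2, h3, h4, h5⟩
    rw [e]
    rfl
  funext n
  unfold γ Pool.Agent.W2helper67.RL.od
  rw [h]

/-- **Unconditionally, linear relations between ordinates at well separated places are rare, and the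
linear forms are spread at least at the scale `√(log r) / log N`.** -/
theorem result (k A M : ℕ) (C θ : ℝ) (hθ : 0 < θ) :
    ∃ κ : ℝ, 0 < κ ∧ ∃ r₀ N₀ : ℕ, ∀ r N : ℕ, r₀ ≤ r → N₀ ≤ N →
    (r : ℝ) ^ (A + 1) ≤ Real.log N →
    ∀ i : Fin (k + 1) → ℕ, (∀ a b, a ≠ b → (r : ℝ) ≤ |(i a : ℝ) - i b|) → (∀ a, i a ≤ r ^ A) →
    ∀ S : Finset (Fin (k + 1) → ℝ), S.card ≤ M →
    (∀ c ∈ S, (∀ a, |c a| ≤ C) ∧ (∃ a, 1 ≤ |c a|) ∧ (∑ a, c a = 0 ∨ 1 ≤ |∑ a, c a|)) →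
    ∀ E : (Fin (k + 1) → ℝ) → ℝ,
      (Set.ncard {n : ℕ | n ≤ N ∧ ∃ c ∈ S, |∑ a, c a * γ (n + i a) - E c| ≤
        κ * Real.sqrt (Real.log r) / Real.log N} : ℝ) ≤ θ * N := by
  classical
  obtain ⟨κ, r0, N0, hκ, hr0, h⟩ := Pool.Agent.W2helper67.RL.main (ι := Fin (k + 1)) A M (max C 0) θ
    (le_max_right _ _) hθ
  refine ⟨κ, hκ, ⌈r0⌉₊, N0, ?_⟩
  intro r N hr hN hrN i hi hiA S hS1 hS2 E
  have hr' : r0 ≤ (r : ℝ) := (Nat.le_ceil r0).trans (by exact_mod_cast hr)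
  have hfin : {n : ℕ | n ≤ N ∧ ∃ c ∈ S, |∑ a, c a * γ (n + i a) - E c| ≤
        κ * Real.sqrt (Real.log r) / Real.log N}.Finite :=
    (Set.finite_Iic N).subset fun n hn => hn.1
  rw [Set.ncard_eq_toFinset_card _ hfin]
  refine h r hr' N hN hrN i hi (fun a => by exact_mod_cast hiA a) S hS1
    (fun c hc => ⟨fun a => ((hS2 c hc).1 a).trans (le_max_left _ _), (hS2 c hc).2⟩) E _ ?_
  intro n hn
  rw [Set.Finite.mem_toFinset] at hn
  rw [← γ_eq]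
  exact hn

/-- the case of integer coefficients of bounded size and of a bounded distance in units of the mean
spacing; in particular exact relations `∑ c a * γ (n + i a) = 0` -/
theorem integer_relations (k A H : ℕ) (K θ : ℝ) (hθ : 0 < θ) : ∃ r₀ N₀ : ℕ, ∀ r N : ℕ, r₀ ≤ r →
    N₀ ≤ N → (r : ℝ) ^ (A + 1) ≤ Real.log N →
    ∀ i : Fin (k + 1) → ℕ, (∀ a b, a ≠ b → (r : ℝ) ≤ |(i a : ℝ) - i b|) → (∀ a, i a ≤ r ^ A) →
    (Set.ncard {n : ℕ | n ≤ N ∧ ∃ c : Fin (k + 1) → ℤ, c ≠ 0 ∧ (∀ a, |c a| ≤ H) ∧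
      |∑ a, (c a : ℝ) * γ (n + i a)| ≤ K / Real.log N} : ℝ) ≤ θ * N := by
  classical
  obtain ⟨S, hS⟩ : ∃ S : Finset (Fin (k + 1) → ℝ), S = ((Fintype.piFinset fun _ : Fin (k + 1) =>
    Finset.Icc (-(H : ℤ)) H).filter fun c => c ≠ 0).image fun c a => (c a : ℝ) := ⟨_, rfl⟩
  have hmem : ∀ c : Fin (k + 1) → ℤ, c ≠ 0 → (∀ a, |c a| ≤ H) → (fun a => (c a : ℝ)) ∈ S := by
    intro c hc hcH
    rw [hS, Finset.mem_image]
    refine ⟨c, ?_, rfl⟩
    rw [Finset.mem_filter, Fintype.mem_piFinset]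
    exact ⟨fun a => Finset.mem_Icc.2 (abs_le.1 (hcH a)), hc⟩
  obtain ⟨κ, hκ, r0, N0, h⟩ := result k A S.card H θ hθ
  refine ⟨max r0 ⌈Real.exp ((|K| / κ) ^ 2)⌉₊, N0, fun r N hr hN hrN i hi hiA => ?_⟩
  have hr1 : r0 ≤ r := (le_max_left _ _).trans hr
  have hr2 : Real.exp ((|K| / κ) ^ 2) ≤ r := (Nat.le_ceil _).trans
    (by exact_mod_cast (le_max_right _ _).trans hr)
  have hr0 : (0 : ℝ) < r := (Real.exp_pos _).trans_le hr2
  have hlr : (|K| / κ) ^ 2 ≤ Real.log r := (Real.le_log_iff_exp_le hr0).2 hr2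
  have hK : K ≤ κ * Real.sqrt (Real.log r) := by
    have h1 := Real.le_sqrt_of_sq_le hlr
    rw [div_le_iff₀ hκ] at h1
    linarith [le_abs_self K]
  have hmain := h r N hr1 hN hrN i hi hiA S le_rfl ?_ (fun _ => 0)
  · refine le_trans ?_ hmain
    have hfin : {n : ℕ | n ≤ N ∧ ∃ c ∈ S, |∑ a, c a * γ (n + i a) - 0| ≤
        κ * Real.sqrt (Real.log r) / Real.log N}.Finite :=
      (Set.finite_Iic N).subset fun n hn => hn.1
    have hle := Set.ncard_le_ncard (s := {n : ℕ | n ≤ N ∧ ∃ c : Fin (k + 1) → ℤ, c ≠ 0 ∧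
      (∀ a, |c a| ≤ H) ∧ |∑ a, (c a : ℝ) * γ (n + i a)| ≤ K / Real.log N}) ?_ hfin
    · exact_mod_cast hle
    · rintro n ⟨h1, c, h2, h3, h4⟩
      refine ⟨h1, _, hmem c h2 h3, ?_⟩
      rw [sub_zero]
      exact h4.trans (div_le_div_of_nonneg_right hK (Real.log_natCast_nonneg N))
  · intro c hc
    rw [hS, Finset.mem_image] at hc
    obtain ⟨d, hd, rfl⟩ := hc
    rw [Finset.mem_filter, Fintype.mem_piFinset] at hd
    obtain ⟨hd1, hd2⟩ := hd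
    refine ⟨fun a => ?_, ?_, ?_⟩
    · have h1 := abs_le.2 (Finset.mem_Icc.1 (hd1 a))
      show |((d a : ℤ) : ℝ)| ≤ (H : ℝ)
      rw [← Int.cast_abs]
      exact_mod_cast h1
    · obtain ⟨a, ha⟩ := Function.ne_iff.1 hd2
      refine ⟨a, ?_⟩
      show 1 ≤ |((d a : ℤ) : ℝ)|
      rw [← Int.cast_abs]
      exact_mod_cast Int.one_le_abs ha
    · have h1 : ∑ a, ((d a : ℤ) : ℝ) = ((∑ a, d a : ℤ) : ℝ) := by push_cast; rfl
      show ∑ a, ((d a : ℤ) : ℝ) = 0 ∨ 1 ≤ |∑ a, ((d a : ℤ) : ℝ)|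
      rw [h1]
      by_cases h2 : ∑ a, d a = 0
      · left; rw [h2]; norm_num
      · right
        rw [← Int.cast_abs]
        exact_mod_cast Int.one_le_abs h2

end Pool.Agent.Results.MP_0f5a55_nt.WellSeparatedRelations
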